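import Pool.Agent.Lib.MP_8e06fd_an.Defs

set_option autoImplicit false

open Set Topology Filter

namespace Pool.Agent.Lib.OscSpec

/-- The `j`-th bump, supported in `(2^(-j-1), 2^(-j))`. -/
noncomputable def bR (j : ℕ) (s : ℝ) : ℝ := max 0 (1 - |2 ^ (j + 2) * s - 3|)

theorem bR_nonneg (j : ℕ) (s : ℝ) : 0 ≤ bR j s := le_max_left _ _

theorem bR_le_one (j : ℕ) (s : ℝ) : bR j s ≤ 1 :=
  max_le zero_le_one (by linarith [abs_nonneg (2 ^ (j + 2) * s - 3)])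

theorem bR_continuous (j : ℕ) : Continuous (bR j) := by
  unfold bR
  fun_prop

theorem bR_lip (j : ℕ) (s t : ℝ) : |bR j s - bR j t| ≤ 2 ^ (j + 2) * |s - t| := by
  unfold bR
  have h1 := abs_max_sub_max_le_abs (1 - |2 ^ (j + 2) * s - 3|) (1 - |2 ^ (j + 2) * t - 3|) 0
  rw [max_comm 0, max_comm 0]
  refine h1.trans ?_
  have h2 : (1 - |2 ^ (j + 2) * s - 3|) - (1 - |2 ^ (j + 2) * t - 3|) =
      |2 ^ (j + 2) * t - 3| - |2 ^ (j + 2) * s - 3| := by ring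
  rw [h2]
  refine (abs_abs_sub_abs_le _ _).trans ?_
  have h3 : (2 : ℝ) ^ (j + 2) * t - 3 - (2 ^ (j + 2) * s - 3) = 2 ^ (j + 2) * (t - s) := by ring
  rw [h3, abs_mul, abs_of_pos (by positivity : (0 : ℝ) < 2 ^ (j + 2)), abs_sub_comm]

theorem bR_eq_zero_of_le {j : ℕ} {s : ℝ} (h : 2 ^ (j + 1) * s ≤ 1) : bR j s = 0 := by
  unfold bR
  have h1 : (2 : ℝ) ^ (j + 2) * s = 2 * (2 ^ (j + 1) * s) := by ring
  apply max_eq_left
  rw [h1, abs_of_nonpos (by linarith)]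
  linarith

theorem bR_eq_zero_of_ge {j : ℕ} {s : ℝ} (h : 1 ≤ 2 ^ j * s) : bR j s = 0 := by
  unfold bR
  have h1 : (2 : ℝ) ^ (j + 2) * s = 4 * (2 ^ j * s) := by ring
  apply max_eq_left
  rw [h1, abs_of_nonneg (by linarith)]
  linarith

theorem bR_zero (j : ℕ) : bR j 0 = 0 := bR_eq_zero_of_le (by simp)

theorem bR_disj_aux {j k : ℕ} (hjk : j < k) {s : ℝ} (hj : bR j s ≠ 0) : bR k s = 0 := by
  by_contra hk
  have h1 : 1 < 2 ^ (j + 1) * s := by
    by_contra hh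
    exact hj (bR_eq_zero_of_le (not_lt.mp hh))
  have h2 : 0 < s := by
    by_contra hh
    have : (2 : ℝ) ^ (j + 1) * s ≤ 0 :=
      mul_nonpos_of_nonneg_of_nonpos (by positivity) (not_lt.mp hh)
    linarith
  apply hk
  apply bR_eq_zero_of_ge
  have h3 : (2 : ℝ) ^ (j + 1) ≤ 2 ^ k := pow_le_pow_right₀ (by norm_num) hjk
  nlinarith

theorem bR_disj {j k : ℕ} {s : ℝ} (hj : bR j s ≠ 0) (hjk : k ≠ j) : bR k s = 0 := by
  rcases lt_or_gt_of_ne hjk with h | h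
  · by_contra hk
    exact hj (bR_disj_aux h hk)
  · exact bR_disj_aux h hj

/-- The centres. -/
noncomputable def cI (j : ℕ) : I := ⟨3 / 2 ^ (j + 2), by
  constructor
  · positivity
  · rw [div_le_one (by positivity)]
    have : (1 : ℝ) ≤ 2 ^ j := one_le_pow₀ (by norm_num)
    rw [pow_add]
    linarith⟩

theorem bR_cI_self (j : ℕ) : bR j (cI j) = 1 := by
  have h : (2 : ℝ) ^ (j + 2) * (3 / 2 ^ (j + 2)) = 3 := by field_simp
  simp only [cI, bR, h]
  simp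

theorem bR_cI (j k : ℕ) : bR j (cI k) = if j = k then 1 else 0 := by
  split_ifs with h
  · rw [h, bR_cI_self]
  · exact bR_disj (j := k) (by rw [bR_cI_self]; norm_num) h

theorem cI_le (j : ℕ) : ((cI j : I) : ℝ) ≤ 1 / 2 ^ j := by
  simp only [cI]
  rw [div_le_div_iff₀ (by positivity) (by positivity)]
  rw [pow_add]
  have : (0 : ℝ) < 2 ^ j := by positivity
  linarith

theorem cI_pos (j : ℕ) : 0 < ((cI j : I) : ℝ) := by
  simp only [cI]
  positivity

/-- Bumps as continuous functions. -/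
noncomputable def bC (j : ℕ) : C(I, ℝ) := ⟨fun s => bR j s, (bR_continuous j).comp continuous_subtype_val⟩

@[simp] theorem bC_apply (j : ℕ) (s : I) : bC j s = bR j s := rfl

theorem sum_bR_le {ι : Type} [Fintype ι] (ν : ι → ℕ) (hν : Function.Injective ν) (a : ι → ℝ)
    (C : ℝ) (hC : 0 ≤ C) (ha : ∀ i, |a i| ≤ C) (s : ℝ) : |∑ i, a i * bR (ν i) s| ≤ C := by
  classical
  by_cases h : ∀ i, bR (ν i) s = 0
  · simp [h, hC]
  · push Not at h
    obtain ⟨i, hi⟩ := h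
    rw [Finset.sum_eq_single i]
    · rw [abs_mul, abs_of_nonneg (bR_nonneg _ _)]
      calc |a i| * bR (ν i) s ≤ C * 1 := mul_le_mul (ha i) (bR_le_one _ _) (bR_nonneg _ _) hC
        _ = C := mul_one C
    · intro k _ hk
      rw [bR_disj hi (fun h => hk (hν h)), mul_zero]
    · simp

theorem norm_sum_bC_le {ι : Type} [Fintype ι] (ν : ι → ℕ) (hν : Function.Injective ν)
    (a : ι → ℝ) (C : ℝ) (hC : 0 ≤ C) (ha : ∀ i, |a i| ≤ C) :
    ‖∑ i, a i • bC (ν i)‖ ≤ C := by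
  rw [ContinuousMap.norm_le _ hC]
  intro s
  rw [Real.norm_eq_abs]
  have : (∑ i, a i • bC (ν i)) s = ∑ i, a i * bR (ν i) s := by
    simp [ContinuousMap.sum_apply]
  rw [this]
  exact sum_bR_le ν hν a C hC ha s

/-- Signs. -/
abbrev Gp (m : ℕ) : Type := Fin m → ℤˣ

/-- the real number `x_i` -/
def sg {m : ℕ} (x : Gp m) (i : Fin m) : ℝ := ((x i : ℤ) : ℝ)

theorem sg_mul {m : ℕ} (x y : Gp m) (i : Fin m) : sg (x * y) i = sg x i * sg y i := by
  simp [sg]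

theorem sg_sq {m : ℕ} (x : Gp m) (i : Fin m) : sg x i * sg x i = 1 := by
  unfold sg
  rcases Int.units_eq_one_or (x i) with h | h <;> simp [h]

/-- encoding -/
noncomputable def enc : (Σ m : ℕ, Gp m) → ℕ :=
  Classical.choose (exists_injective_nat (Σ m : ℕ, Gp m))

theorem enc_inj : Function.Injective enc :=
  Classical.choose_spec (exists_injective_nat (Σ m : ℕ, Gp m))

/-- odd indices -/
noncomputable def nu (m : ℕ) (x : Gp m) : ℕ := 2 * enc ⟨m, x⟩ + 1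

theorem nu_inj (m : ℕ) : Function.Injective (nu m) := by
  intro x y h
  have h1 : enc ⟨m, x⟩ = enc ⟨m, y⟩ := by
    unfold nu at h
    omega
  have h2 := enc_inj h1
  simpa using h2

theorem nu_ne {m m' : ℕ} (h : m ≠ m') (x : Gp m) (y : Gp m') : nu m x ≠ nu m' y := by
  intro hh
  have h1 : enc ⟨m, x⟩ = enc ⟨m', y⟩ := by
    unfold nu at hh
    omega
  have h2 := enc_inj h1
  rw [Sigma.mk.injEq] at h2
  exact h h2.1

theorem nu_ne_even {m : ℕ} (x : Gp m) (k : ℕ) : nu m x ≠ 2 * k := by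
  unfold nu
  omega

/-- The map `a ↦ ∑ a_x b_{ν(m,x)}`. -/
noncomputable def UU (m : ℕ) (a : Gp m → ℝ) : C(I, ℝ) := ∑ x, a x • bC (nu m x)

/-- The sampling map. -/
noncomputable def VV (m : ℕ) (f : C(I, ℝ)) (x : Gp m) : ℝ := f (cI (nu m x))

theorem UU_apply (m : ℕ) (a : Gp m → ℝ) (s : I) : UU m a s = ∑ x, a x * bR (nu m x) s := by
  simp [UU, ContinuousMap.sum_apply]

theorem norm_UU_le (m : ℕ) (a : Gp m → ℝ) (C : ℝ) (hC : 0 ≤ C) (ha : ∀ x, |a x| ≤ C) :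
    ‖UU m a‖ ≤ C := norm_sum_bC_le (nu m) (nu_inj m) a C hC ha

theorem VV_UU (m : ℕ) (a : Gp m → ℝ) : VV m (UU m a) = a := by
  classical
  funext x
  unfold VV
  rw [UU_apply]
  simp only [bR_cI]
  rw [Finset.sum_eq_single x]
  · simp
  · intro y _ hy
    rw [if_neg (fun h => hy (nu_inj m h)), mul_zero]
  · simp

theorem VV_UU_ne {m m' : ℕ} (h : m ≠ m') (a : Gp m → ℝ) (x : Gp m') : VV m' (UU m a) x = 0 := by
  unfold VV
  rw [UU_apply]
  apply Finset.sum_eq_zero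
  intro y _
  rw [bR_cI, if_neg (nu_ne h y x), mul_zero]

/-- Evaluation functional. -/
noncomputable abbrev ev (t : I) : C(I, ℝ) →L[ℝ] ℝ := ContinuousMap.evalCLM ℝ t

/-- The functional whose vanishing says `f(t) = ∑_{j<J} f(c_j) b_j(t)`. -/
noncomputable def L2 (J : ℕ) (t : I) : C(I, ℝ) →L[ℝ] ℝ :=
  ev t - ∑ j ∈ Finset.range J, bR j t • ev (cI j)

/-- The functional whose vanishing says `f(c_{ν(m,x)}) = ∑_i (2^{-m} ∑_y f(c_{ν(m,y)}) y_i) x_i`. -/
noncomputable def L3 (m : ℕ) (x : Gp m) : C(I, ℝ) →L[ℝ] ℝ :=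
  ev (cI (nu m x)) - ∑ i : Fin m, sg x i • ((1 / 2 ^ m : ℝ) • ∑ y : Gp m, sg y i • ev (cI (nu m y)))

/-- The space `A₀`. -/
noncomputable def A0 : Submodule ℝ C(I, ℝ) :=
  LinearMap.ker (ev 0 : C(I, ℝ) →ₗ[ℝ] ℝ) ⊓
    ((⨅ J : ℕ, ⨅ t : I, ⨅ (_ : 1 ≤ (2 : ℝ) ^ J * (t : ℝ)), LinearMap.ker (L2 J t : C(I, ℝ) →ₗ[ℝ] ℝ)) ⊓
      ⨅ m : ℕ, ⨅ x : Gp m, LinearMap.ker (L3 m x : C(I, ℝ) →ₗ[ℝ] ℝ))

theorem mem_A0 (f : C(I, ℝ)) : f ∈ A0 ↔ f 0 = 0 ∧
    (∀ (J : ℕ) (t : I), 1 ≤ (2 : ℝ) ^ J * (t : ℝ) →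
      f t = ∑ j ∈ Finset.range J, bR j t * f (cI j)) ∧
    (∀ (m : ℕ) (x : Gp m), VV m f x = ∑ i : Fin m, sg x i * ((1 / 2 ^ m : ℝ) *
      ∑ y : Gp m, sg y i * VV m f y)) := by
  unfold A0
  simp only [Submodule.mem_inf, Submodule.mem_iInf, LinearMap.mem_ker]
  refine and_congr ?_ (and_congr ?_ ?_)
  · simp [ev]
  · refine forall_congr' fun J => forall_congr' fun t => forall_congr' fun _ => ?_
    simp [L2, sub_eq_zero]
  · refine forall_congr' fun m => forall_congr' fun x => ?_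
    simp [L3, sub_eq_zero, VV]

theorem isClosed_A0 : IsClosed (A0 : Set C(I, ℝ)) := by
  have h1 : ∀ L : C(I, ℝ) →L[ℝ] ℝ, IsClosed ((LinearMap.ker (L : C(I, ℝ) →ₗ[ℝ] ℝ) : Submodule ℝ C(I, ℝ)) : Set C(I, ℝ)) :=
    fun L => L.isClosed_ker
  unfold A0
  simp only [Submodule.coe_inf, Submodule.coe_iInf]
  refine (h1 _).inter (IsClosed.inter ?_ ?_)
  · exact isClosed_iInter fun J => isClosed_iInter fun t => isClosed_iInter fun _ => h1 _
  · exact isClosed_iInter fun m => isClosed_iInter fun x => h1 _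

theorem bC_interp (k J : ℕ) (t : I) (ht : 1 ≤ (2 : ℝ) ^ J * (t : ℝ)) :
    bR k t = ∑ j ∈ Finset.range J, bR j t * bR k (cI j) := by
  simp only [bR_cI]
  rcases lt_or_ge k J with h | h
  · rw [Finset.sum_eq_single k]
    · simp
    · intro j _ hj
      rw [if_neg (Ne.symm hj), mul_zero]
    · intro hk
      exact absurd (Finset.mem_range.mpr h) hk
  · rw [Finset.sum_eq_zero]
    · apply bR_eq_zero_of_ge
      have h0 : (0 : ℝ) ≤ t := t.2.1
      have h1 : (2 : ℝ) ^ J ≤ 2 ^ k := pow_le_pow_right₀ (by norm_num) h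
      nlinarith
    · intro j hj
      have := Finset.mem_range.mp hj
      rw [if_neg (by omega), mul_zero]

theorem even_mem (k : ℕ) : bC (2 * k) ∈ A0 := by
  rw [mem_A0]
  have h0 : ∀ (m : ℕ) (x : Gp m), VV m (bC (2 * k)) x = 0 := by
    intro m x
    unfold VV
    rw [bC_apply, bR_cI, if_neg (Ne.symm (nu_ne_even x k))]
  refine ⟨bR_zero _, ?_, ?_⟩
  · intro J t ht
    exact bC_interp (2 * k) J t ht
  · intro m x
    simp [h0]

theorem sg_orth {m : ℕ} (i k : Fin m) :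
    ∑ y : Gp m, sg y i * sg y k = if i = k then (2 : ℝ) ^ m else 0 := by
  classical
  split_ifs with h
  · subst h
    simp only [sg_sq]
    simp [Fintype.card_units_int]
  · have h1 : ∑ y : Gp m, sg y i * sg y k =
        ∑ y : Gp m, sg (Pi.mulSingle i (-1) * y) i * sg (Pi.mulSingle i (-1) * y) k :=
      (Equiv.sum_comp (Equiv.mulLeft (Pi.mulSingle i (-1) : Gp m))
        (fun y => sg y i * sg y k)).symm
    have h2 : ∀ y : Gp m, sg (Pi.mulSingle i (-1) * y) i * sg (Pi.mulSingle i (-1) * y) k =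
        -(sg y i * sg y k) := by
      intro y
      have h3 : sg (Pi.mulSingle i (-1) : Gp m) i = -1 := by simp [sg]
      have h4 : sg (Pi.mulSingle i (-1) : Gp m) k = 1 := by
        simp [sg, Pi.mulSingle_eq_of_ne (Ne.symm h)]
      rw [sg_mul, sg_mul, h3, h4]
      ring
    simp only [h2, Finset.sum_neg_distrib] at h1
    linarith

theorem rad_mem (m : ℕ) (i : Fin m) : UU m (fun x => sg x i) ∈ A0 := by
  classical
  rw [mem_A0]
  refine ⟨?_, ?_, ?_⟩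
  · rw [UU_apply]
    apply Finset.sum_eq_zero
    intro x _
    have : ((0 : I) : ℝ) = 0 := rfl
    rw [this, bR_zero, mul_zero]
  · intro J t ht
    rw [UU_apply]
    simp only [UU_apply]
    simp only [Finset.mul_sum]
    rw [Finset.sum_comm]
    apply Finset.sum_congr rfl
    intro x _
    rw [bC_interp (nu m x) J t ht, Finset.mul_sum]
    apply Finset.sum_congr rfl
    intro j _
    ring
  · intro m' x
    by_cases hm : m = m'
    · subst hm
      rw [VV_UU]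
      have h1 : ∀ k : Fin m, ∑ y : Gp m, sg y k * sg y i = if k = i then (2 : ℝ) ^ m else 0 :=
        fun k => sg_orth k i
      simp only [h1]
      rw [Finset.sum_eq_single i]
      · simp
      · intro k _ hk
        simp [hk]
      · simp
    · simp [VV_UU_ne hm]

theorem A0_lip (J : ℕ) (f : C(I, ℝ)) (hf : f ∈ A0) (s t : I) (hs : 1 ≤ (2 : ℝ) ^ J * (s : ℝ))
    (ht : 1 ≤ (2 : ℝ) ^ J * (t : ℝ)) :
    |f s - f t| ≤ ‖f‖ * ((∑ j ∈ Finset.range J, (2 : ℝ) ^ (j + 2)) * |(s : ℝ) - t|) := by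
  obtain ⟨_, h2, _⟩ := (mem_A0 f).mp hf
  rw [h2 J s hs, h2 J t ht, ← Finset.sum_sub_distrib]
  rw [Finset.sum_mul, Finset.mul_sum]
  refine (Finset.abs_sum_le_sum_abs _ _).trans (Finset.sum_le_sum ?_)
  intro j _
  rw [← sub_mul, abs_mul, mul_comm]
  exact mul_le_mul (f.norm_coe_le_norm _) (bR_lip j s t) (abs_nonneg _) (norm_nonneg _)

theorem A0_apply_zero {f : C(I, ℝ)} (hf : f ∈ A0) : f 0 = 0 := ((mem_A0 f).mp hf).1

end Pool.Agent.Lib.OscSpec
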