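import Mathlib

/-!
# Oscillating spectrum of subspaces of `C[0,1]`
-/

set_option autoImplicit false

open Set

namespace Pool.Agent.Lib.OscSpec

/-- The unit interval. -/
abbrev I : Type := Set.Icc (0 : ℝ) 1

/-- The oscillation `sup_{s,t ∈ J} |f(s) - f(t)|` of `f` on a set `J`. -/
noncomputable def osc (f : C(I, ℝ)) (J : Set I) : ℝ :=
  sSup {r : ℝ | ∃ s ∈ J, ∃ t ∈ J, r = |f s - f t|}

/-- The interval `I(t, d) = [0,1] ∩ [t - d, t + d]`. -/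
def nbhd (t : I) (d : ℝ) : Set I := {s : I | |(s : ℝ) - (t : ℝ)| ≤ d}

/-- `Γ_X(t) = sup {a ≥ 0 : for all d > 0 some f ∈ X, ‖f‖ = 1, has oscillation > a on I(t,d)}`. -/
noncomputable def Gam (X : Submodule ℝ C(I, ℝ)) (t : I) : ℝ :=
  sSup {a : ℝ | 0 ≤ a ∧ ∀ d : ℝ, 0 < d → ∃ f ∈ X, ‖f‖ = 1 ∧ a < osc f (nbhd t d)}

/-- The oscillating spectrum `Ω(X) = {t : Γ_X(t) > 0}`. -/
def oscSpectrum (X : Submodule ℝ C(I, ℝ)) : Set I := {t | 0 < Gam X t}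

/-- `X` is complemented: it is the range of a bounded linear projection of `C[0,1]`. -/
def Complemented (X : Submodule ℝ C(I, ℝ)) : Prop :=
  ∃ P : C(I, ℝ) →L[ℝ] C(I, ℝ), (∀ f, P (P f) = P f) ∧ (∀ f, f ∈ X ↔ ∃ g, P g = f)

theorem osc_bddAbove (f : C(I, ℝ)) (J : Set I) :
    BddAbove {r : ℝ | ∃ s ∈ J, ∃ t ∈ J, r = |f s - f t|} := by
  refine ⟨2 * ‖f‖, ?_⟩
  rintro r ⟨s, _, t, _, rfl⟩
  have h1 : |f s| ≤ ‖f‖ := f.norm_coe_le_norm s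
  have h2 : |f t| ≤ ‖f‖ := f.norm_coe_le_norm t
  have h3 := abs_sub (f s) (f t)
  linarith

theorem osc_le (f : C(I, ℝ)) (J : Set I) (hJ : J.Nonempty) (c : ℝ)
    (h : ∀ s ∈ J, ∀ t ∈ J, |f s - f t| ≤ c) : osc f J ≤ c := by
  obtain ⟨s, hs⟩ := hJ
  refine csSup_le ⟨_, s, hs, s, hs, rfl⟩ ?_
  rintro r ⟨s, hs, t, ht, rfl⟩
  exact h s hs t ht

theorem le_osc (f : C(I, ℝ)) (J : Set I) (s t : I) (hs : s ∈ J) (ht : t ∈ J) :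
    |f s - f t| ≤ osc f J :=
  le_csSup (osc_bddAbove f J) ⟨s, hs, t, ht, rfl⟩

theorem mem_nbhd_self (t : I) {d : ℝ} (hd : 0 < d) : t ∈ nbhd t d := by
  simp [nbhd, hd.le]

theorem not_mem_spec (X : Submodule ℝ C(I, ℝ)) (t : I)
    (h : ∀ η : ℝ, 0 < η → ∃ d : ℝ, 0 < d ∧ ∀ f ∈ X, ‖f‖ = 1 → ∀ s ∈ nbhd t d, ∀ u ∈ nbhd t d,
      |f s - f u| ≤ η) : t ∉ oscSpectrum X := by
  intro ht
  have ht' : 0 < Gam X t := ht
  have hle : ∀ η : ℝ, 0 < η → Gam X t ≤ η := by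
    intro η hη
    refine Real.sSup_le ?_ hη.le
    rintro a ⟨_, ha⟩
    obtain ⟨d, hd, hd2⟩ := h η hη
    obtain ⟨f, hf, hf1, hfa⟩ := ha d hd
    have h1 := osc_le f (nbhd t d) ⟨t, mem_nbhd_self t hd⟩ η (hd2 f hf hf1)
    linarith
  have := hle (Gam X t / 2) (by linarith)
  linarith

theorem mem_spec (X : Submodule ℝ C(I, ℝ)) (t : I) (c : ℝ) (hc : 0 < c)
    (h : ∀ d : ℝ, 0 < d → ∃ f ∈ X, ‖f‖ = 1 ∧ ∃ s ∈ nbhd t d, ∃ u ∈ nbhd t d,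
      c ≤ |f s - f u|) : t ∈ oscSpectrum X := by
  have hb : BddAbove {a : ℝ | 0 ≤ a ∧ ∀ d : ℝ, 0 < d → ∃ f ∈ X, ‖f‖ = 1 ∧
      a < osc f (nbhd t d)} := by
    refine ⟨2, ?_⟩
    rintro a ⟨_, ha⟩
    obtain ⟨f, _, hf1, hfa⟩ := ha 1 one_pos
    have h1 := osc_le f (nbhd t 1) ⟨t, mem_nbhd_self t one_pos⟩ 2 (by
      intro s _ u _
      have h1 : |f s| ≤ ‖f‖ := f.norm_coe_le_norm s
      have h2 : |f u| ≤ ‖f‖ := f.norm_coe_le_norm u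
      have h3 := abs_sub (f s) (f u)
      linarith)
    linarith
  have hmem : c / 2 ∈ {a : ℝ | 0 ≤ a ∧ ∀ d : ℝ, 0 < d → ∃ f ∈ X, ‖f‖ = 1 ∧
      a < osc f (nbhd t d)} := by
    refine ⟨by positivity, ?_⟩
    intro d hd
    obtain ⟨f, hf, hf1, s, hs, u, hu, hsu⟩ := h d hd
    refine ⟨f, hf, hf1, ?_⟩
    have := le_osc f (nbhd t d) s u hs hu
    linarith
  have := le_csSup hb hmem
  change 0 < Gam X t
  unfold Gam
  linarith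

end Pool.Agent.Lib.OscSpec
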