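import Pool.Agent.Lib.MP_8e06fd_an.Spec

set_option autoImplicit false

open Set Topology Filter

namespace Pool.Agent.Lib.OscSpec

theorem coe_eq_zero_iff (t : I) : (t : ℝ) = 0 ↔ t = 0 :=
  ⟨fun h => Subtype.ext h, fun h => by rw [h]; rfl⟩

theorem pos_of_ne {t : I} (h : t ≠ 0) : 0 < (t : ℝ) :=
  lt_of_le_of_ne t.2.1 (fun h2 => h ((coe_eq_zero_iff t).mp h2.symm))

theorem exists_psi (F : Set I) (hF : IsClosed F) : ∃ ψ : C(I, I), ∀ t, ψ t = 0 ↔ t ∈ F := by
  rcases F.eq_empty_or_nonempty with h | h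
  · refine ⟨ContinuousMap.const _ 1, ?_⟩
    intro t
    rw [h]
    simp only [ContinuousMap.const_apply, Set.mem_empty_iff_false, iff_false]
    intro h2
    have := congrArg Subtype.val h2
    norm_num at this
  · refine ⟨⟨fun t => Set.projIcc 0 1 zero_le_one (Metric.infDist t F), ?_⟩, ?_⟩
    · exact continuous_projIcc.comp (Metric.continuous_infDist_pt F)
    · intro t
      simp only [ContinuousMap.coe_mk]
      rw [hF.mem_iff_infDist_zero h, ← coe_eq_zero_iff, Set.coe_projIcc]
      have h0 : 0 ≤ Metric.infDist t F := Metric.infDist_nonneg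
      constructor
      · intro h1
        by_contra h2
        have h3 : 0 < Metric.infDist t F := lt_of_le_of_ne h0 (Ne.symm h2)
        have h4 : 0 < max 0 (min 1 (Metric.infDist t F)) := lt_max_of_lt_right (lt_min one_pos h3)
        linarith
      · intro h1
        rw [h1]
        simp

/-- Tent function. -/
noncomputable def tent (p r : ℝ) : C(I, I) :=
  ⟨fun t => Set.projIcc 0 1 zero_le_one (1 - |(t : ℝ) - p| / r),
    continuous_projIcc.comp (by fun_prop)⟩

theorem tent_eq_zero {p r : ℝ} (hr : 0 < r) {t : I} (h : r ≤ |(t : ℝ) - p|) : tent p r t = 0 := by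
  have h1 : 1 - |(t : ℝ) - p| / r ≤ 0 := by
    rw [sub_nonpos, one_le_div hr]
    exact h
  exact Set.projIcc_of_le_left zero_le_one h1

theorem tent_surj {p r : ℝ} (hr : 0 < r) (h0 : 0 ≤ p) (h1 : p + r ≤ 1) :
    Function.Surjective (tent p r) := by
  intro v
  have hv1 := v.2.1
  have hv2 := v.2.2
  have hm : p + (1 - v) * r ∈ Set.Icc (0 : ℝ) 1 := by
    constructor
    · nlinarith
    · nlinarith
  refine ⟨⟨p + (1 - v) * r, hm⟩, ?_⟩
  change Set.projIcc 0 1 zero_le_one (1 - |(p + (1 - v) * r) - p| / r) = v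
  have h2 : 1 - |(p + (1 - (v : ℝ)) * r) - p| / r = v := by
    have h3 : (p + (1 - (v : ℝ)) * r) - p = (1 - v) * r := by ring
    rw [h3, abs_of_nonneg (by nlinarith)]
    field_simp
    ring
  rw [h2]
  exact Set.projIcc_val zero_le_one v

theorem low_fst (φ0 φ1 : C(I, I)) (h0 : Function.Surjective φ0) (hd : ∀ s, φ0 s = 0 ∨ φ1 s = 0)
    (f g : C(I, ℝ)) (hf : f 0 = 0) (hg : g 0 = 0) : ‖f‖ ≤ ‖Cm φ0 f + Cm φ1 g‖ := by
  rw [ContinuousMap.norm_le _ (norm_nonneg _)]
  intro t
  obtain ⟨s, rfl⟩ := h0 t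
  rcases hd s with h | h
  · rw [h, hf, norm_zero]
    exact norm_nonneg _
  · have h1 := (Cm φ0 f + Cm φ1 g).norm_coe_le_norm s
    simp only [ContinuousMap.add_apply, Cm_apply, h, hg, add_zero] at h1
    exact h1

theorem exists_ball (U : Set I) (hU : IsOpen U) (hne : U.Nonempty) :
    ∃ p ρ : ℝ, 0 < ρ ∧ ρ ≤ p ∧ p + ρ ≤ 1 ∧ ∀ t : I, |(t : ℝ) - p| < ρ → t ∈ U := by
  have : ConnectedSpace I :=
    Subtype.connectedSpace ⟨⟨0, by simp⟩, isPreconnected_Icc⟩
  have : Nontrivial I := ⟨⟨0, 1, by
    intro h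
    have := congrArg Subtype.val h
    norm_num at this⟩⟩
  obtain ⟨t0, ht0⟩ := hne
  have hinf := infinite_of_mem_nhds t0 (hU.mem_nhds ht0)
  obtain ⟨t, ht, ht2⟩ := hinf.exists_notMem_finset {0, 1}
  simp only [Finset.mem_insert, Finset.mem_singleton, not_or] at ht2
  obtain ⟨ε, hε, hball⟩ := Metric.isOpen_iff.mp hU t ht
  have h0 : 0 < (t : ℝ) := pos_of_ne ht2.1
  have h1 : (t : ℝ) < 1 := lt_of_le_of_ne t.2.2 (fun h => ht2.2 (Subtype.ext h))
  refine ⟨t, min ε (min t (1 - t)), lt_min hε (lt_min h0 (by linarith)), ?_, ?_, ?_⟩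
  · exact (min_le_right _ _).trans (min_le_left _ _)
  · have : min ε (min (t : ℝ) (1 - t)) ≤ 1 - t := (min_le_right _ _).trans (min_le_right _ _)
    linarith
  · intro s hs
    apply hball
    rw [Metric.mem_ball, dist_I]
    exact lt_of_lt_of_le hs (min_le_left _ _)

theorem not_int_aux (M : Set I) (t : I) (ht : t ∉ interior M) (d : ℝ) (hd : 0 < d) :
    ∃ s ∈ nbhd t d, s ∉ M := by
  by_contra hcon
  push Not at hcon
  apply ht
  rw [mem_interior_iff_mem_nhds]
  refine Filter.mem_of_superset (Metric.closedBall_mem_nhds t hd) ?_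
  intro s hs
  exact hcon s hs

theorem near_zero_of (p r ρ : ℝ) (hr : 0 < r) (hρ : r < ρ) (t : I) (ht : ρ ≤ |(t : ℝ) - p|) :
    ∀ᶠ s in 𝓝 t, tent p r s = 0 := by
  have hc : Continuous fun s : I => |(s : ℝ) - p| := by fun_prop
  have h1 : ∀ᶠ s : I in 𝓝 t, r < |(s : ℝ) - p| :=
    hc.continuousAt.eventually (lt_mem_nhds (lt_of_lt_of_le hρ ht))
  filter_upwards [h1] with s hs
  exact tent_eq_zero hr hs.le

theorem main (M : Set I) (hM : M.Nonempty) (F : ℕ → Set I) (hF : ∀ n, IsClosed (F n))
    (hMF : M = ⋃ n, F n) :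
    ∃ X : Submodule ℝ C(I, ℝ), IsClosed (X : Set C(I, ℝ)) ∧ ¬ Complemented X ∧
      oscSpectrum X = M := by
  classical
  have hFU : ∀ n, IsClosed (F n \ interior M) := fun n => (hF n).sdiff isOpen_interior
  choose ψ hψ using fun n => exists_psi (F n \ interior M) (hFU n)
  have hψpos : ∀ t, t ∉ M → ∀ n, 0 < ((ψ n t : I) : ℝ) := by
    intro t ht n
    apply pos_of_ne
    intro h
    have h1 := ((hψ n t).mp h).1
    apply ht
    rw [hMF]
    exact Set.mem_iUnion.mpr ⟨n, h1⟩
  have hmem : ∀ D : Dat, D.ψ = ψ → ∀ t ∈ M, t ∉ interior M → t ∈ oscSpectrum D.X := by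
    intro D hD t ht htU
    rw [hMF] at ht
    obtain ⟨n, hn⟩ := Set.mem_iUnion.mp ht
    apply D.mem_of_psi t n
    · rw [hD]
      exact (hψ n t).mpr ⟨hn, htU⟩
    · intro d hd
      obtain ⟨s, hs, hs2⟩ := not_int_aux M t htU d hd
      refine ⟨s, hs, ?_⟩
      rw [hD]
      exact hψpos s hs2 n
  rcases (interior M).eq_empty_or_nonempty with hU | hU
  · -- empty interior
    obtain ⟨t0, ht0⟩ := hM
    let φ : C(I, I) := ⟨fun t => Set.projIcc 0 1 zero_le_one (2 * |(t : ℝ) - t0|),
      continuous_projIcc.comp (by fun_prop)⟩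
    have hφpos : ∀ t, t ≠ t0 → 0 < ((φ t : I) : ℝ) := by
      intro t ht
      change 0 < ((Set.projIcc 0 1 zero_le_one (2 * |(t : ℝ) - t0|) : I) : ℝ)
      rw [Set.coe_projIcc]
      have h1 : 0 < |(t : ℝ) - t0| := by
        rw [abs_pos, sub_ne_zero]
        exact fun h => ht (Subtype.ext h)
      exact lt_max_of_lt_right (lt_min one_pos (by linarith))
    have hsurj : Function.Surjective φ := by
      intro v
      have hv1 := v.2.1
      have hv2 := v.2.2
      have h1 := t0.2.1
      have h2 := t0.2.2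
      rcases le_total (t0 : ℝ) (1 / 2) with h | h
      · have hm : (t0 : ℝ) + v / 2 ∈ Set.Icc (0 : ℝ) 1 := by
          constructor <;> linarith
        refine ⟨⟨_, hm⟩, ?_⟩
        change Set.projIcc 0 1 zero_le_one (2 * |((t0 : ℝ) + v / 2) - t0|) = v
        have h3 : 2 * |((t0 : ℝ) + v / 2) - t0| = v := by
          rw [add_sub_cancel_left, abs_of_nonneg (by linarith)]
          ring
        rw [h3]
        exact Set.projIcc_val zero_le_one v
      · have hm : (t0 : ℝ) - v / 2 ∈ Set.Icc (0 : ℝ) 1 := by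
          constructor <;> linarith
        refine ⟨⟨_, hm⟩, ?_⟩
        change Set.projIcc 0 1 zero_le_one (2 * |((t0 : ℝ) - v / 2) - t0|) = v
        have h3 : 2 * |((t0 : ℝ) - v / 2) - t0| = v := by
          have h4 : ((t0 : ℝ) - v / 2) - t0 = -(v / 2) := by ring
          rw [h4, abs_neg, abs_of_nonneg (by linarith)]
          ring
        rw [h3]
        exact Set.projIcc_val zero_le_one v
    let D : Dat :=
      { φ0 := φ
        φ1 := ContinuousMap.const _ 0
        ψ := ψ
        w := 0
        B := ⊥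
        hB := by simp
        hw0 := fun t => le_rfl
        hw1 := fun t => zero_le_one
        hlow := by
          intro f hf g hg
          rw [Submodule.mem_bot] at hg
          subst hg
          refine ⟨low_fst φ (ContinuousMap.const _ 0) hsurj (fun s => Or.inr rfl) f 0
            (A0_apply_zero hf) rfl, ?_⟩
          rw [norm_zero]
          exact norm_nonneg _ }
    refine ⟨D.X, D.isClosed_X, D.not_complemented, ?_⟩
    ext t
    constructor
    · intro ht
      by_contra htM
      refine D.not_mem t ?_ (hψpos t htM) ?_ ht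
      · left
        exact hφpos t (fun h => htM (h ▸ ht0))
      · intro η hη
        filter_upwards with s g hg _
        have hg' : g = 0 := (Submodule.mem_bot ℝ).mp hg
        rw [hg']
        simp [hη.le]
    · intro ht
      exact hmem D rfl t ht (by rw [hU]; simp)
  · -- nonempty interior
    obtain ⟨p, ρ, hρ, hp0, hp1, hball⟩ := exists_ball (interior M) isOpen_interior hU
    obtain ⟨ω, hω⟩ := exists_psi (interior M)ᶜ isOpen_interior.isClosed_compl
    have hd : ∀ s : I, tent (p - ρ / 2) (ρ / 4) s = 0 ∨ tent (p + ρ / 2) (ρ / 4) s = 0 := by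
      intro s
      rcases le_total (s : ℝ) p with h | h
      · right
        apply tent_eq_zero (by linarith)
        rw [abs_of_nonpos (by linarith)]
        linarith
      · left
        apply tent_eq_zero (by linarith)
        rw [abs_of_nonneg (by linarith)]
        linarith
    have hs0 : Function.Surjective (tent (p - ρ / 2) (ρ / 4)) :=
      tent_surj (by linarith) (by linarith) (by linarith)
    have hs1 : Function.Surjective (tent (p + ρ / 2) (ρ / 4)) :=
      tent_surj (by linarith) (by linarith) (by linarith)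
    let D : Dat :=
      { φ0 := tent (p - ρ / 2) (ρ / 4)
        φ1 := tent (p + ρ / 2) (ρ / 4)
        ψ := ψ
        w := ⟨fun t => ((ω t : I) : ℝ), continuous_subtype_val.comp ω.continuous⟩
        B := LinearMap.ker (ev 0 : C(I, ℝ) →ₗ[ℝ] ℝ)
        hB := (ev 0).isClosed_ker
        hw0 := fun t => (ω t).2.1
        hw1 := fun t => (ω t).2.2
        hlow := by
          intro f hf g hg
          have hg0 : g 0 = 0 := hg
          have hf0 := A0_apply_zero hf
          refine ⟨low_fst _ _ hs0 hd f g hf0 hg0, ?_⟩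
          rw [add_comm]
          exact low_fst _ _ hs1 (fun s => (hd s).symm) g f hg0 hf0 }
    refine ⟨D.X, D.isClosed_X, D.not_complemented, ?_⟩
    ext t
    constructor
    · intro ht
      by_contra htM
      have htU : t ∉ interior M := fun h => htM (interior_subset h)
      have htp : ρ ≤ |(t : ℝ) - p| := by
        by_contra h
        exact htU (hball t (not_le.mp h))
      have hA : ρ / 2 ≤ |(t : ℝ) - (p - ρ / 2)| := by
        have h1 := abs_sub_abs_le_abs_sub ((t : ℝ) - p) (-(ρ / 2))
        rw [abs_neg, abs_of_pos (by linarith : 0 < ρ / 2)] at h1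
        have h2 : (t : ℝ) - p - -(ρ / 2) = t - (p - ρ / 2) := by ring
        rw [h2] at h1
        linarith
      have hB : ρ / 2 ≤ |(t : ℝ) - (p + ρ / 2)| := by
        have h1 := abs_sub_abs_le_abs_sub ((t : ℝ) - p) (ρ / 2)
        rw [abs_of_pos (by linarith : 0 < ρ / 2)] at h1
        have h2 : (t : ℝ) - p - (ρ / 2) = t - (p + ρ / 2) := by ring
        rw [h2] at h1
        linarith
      have z0 := near_zero_of (p - ρ / 2) (ρ / 4) (ρ / 2) (by linarith) (by linarith) t hA
      have z1 := near_zero_of (p + ρ / 2) (ρ / 4) (ρ / 2) (by linarith) (by linarith) t hB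
      refine D.not_mem t (Or.inr z0) (hψpos t htM) ?_ ht
      intro η hη
      have hw0 : D.w t = 0 := by
        change ((ω t : I) : ℝ) = 0
        rw [coe_eq_zero_iff]
        exact (hω t).mpr htU
      have hwe : ∀ᶠ s in 𝓝 t, D.w s < η :=
        D.w.continuous.continuousAt.eventually (gt_mem_nhds (by rw [hw0]; exact hη))
      filter_upwards [z1, hwe] with s hs hs2 g hg hg2
      have e1 : D.φ1 s = 0 := hs
      have e2 : D.φ1 t = 0 := z1.self_of_nhds
      rw [e1, e2, hw0]
      have e3 : g 0 + 1 / 8 * (D.w s * g s) - (g 0 + 1 / 8 * (0 * g t)) = 1 / 8 * (D.w s * g s) := by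
        ring
      rw [e3, abs_mul, abs_mul, abs_of_nonneg (D.hw0 s), abs_of_nonneg (by norm_num : (0 : ℝ) ≤ 1 / 8)]
      have e4 : |g s| ≤ 2 := (g.norm_coe_le_norm s).trans hg2
      have e5 : D.w s * |g s| ≤ η * 2 :=
        mul_le_mul hs2.le e4 (abs_nonneg _) hη.le
      linarith
    · intro ht
      by_cases htU : t ∈ interior M
      · apply D.mem_of_w t
        · change 0 < ((ω t : I) : ℝ)
          apply pos_of_ne
          intro h
          exact ((hω t).mp h) htU
        · intro g hg
          exact hg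
      · exact hmem D rfl t ht htU

end Pool.Agent.Lib.OscSpec
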