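import Pool.Agent.Lib.MP_8e06fd_an.Bumps

set_option autoImplicit false

open Set Topology Filter

namespace Pool.Agent.Lib.OscSpec

/-- sum of signs -/
def SS {m : ℕ} (x : Gp m) : ℝ := ∑ i, sg x i

theorem sum_cons {m : ℕ} (F : Gp (m + 1) → ℝ) :
    ∑ x, F x = ∑ x : Gp m, (F (Fin.cons 1 x) + F (Fin.cons (-1) x)) := by
  rw [← Equiv.sum_comp (Fin.consEquiv (fun _ : Fin (m + 1) => ℤˣ)) F]
  rw [Fintype.sum_prod_type]
  rw [Finset.sum_comm]
  apply Finset.sum_congr rfl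
  intro x _
  rw [UnitsInt.univ, Finset.sum_pair (by decide)]
  rfl

theorem SS_cons {m : ℕ} (e : ℤˣ) (x : Gp m) : SS (Fin.cons e x : Gp (m + 1)) = ((e : ℤ) : ℝ) + SS x := by
  unfold SS
  rw [Fin.sum_univ_succ]
  simp [sg]

theorem M0 (m : ℕ) : ∑ _x : Gp m, (1 : ℝ) = 2 ^ m := by
  simp [Fintype.card_units_int]

theorem M2 (m : ℕ) : ∑ x : Gp m, SS x ^ 2 = m * 2 ^ m := by
  induction m with
  | zero => simp [SS]
  | succ m ih =>
    rw [sum_cons]
    have h : ∀ x : Gp m, SS (Fin.cons 1 x : Gp (m + 1)) ^ 2 + SS (Fin.cons (-1) x : Gp (m + 1)) ^ 2 =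
        2 * SS x ^ 2 + 2 * 1 := by
      intro x
      rw [SS_cons, SS_cons]
      push_cast
      ring
    simp only [h]
    rw [Finset.sum_add_distrib, ← Finset.mul_sum, ih, ← Finset.mul_sum, M0]
    push_cast
    ring

theorem M4 (m : ℕ) : ∑ x : Gp m, SS x ^ 4 = (3 * m ^ 2 - 2 * m) * 2 ^ m := by
  induction m with
  | zero => simp [SS]
  | succ m ih =>
    rw [sum_cons]
    have h : ∀ x : Gp m, SS (Fin.cons 1 x : Gp (m + 1)) ^ 4 + SS (Fin.cons (-1) x : Gp (m + 1)) ^ 4 =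
        2 * SS x ^ 4 + (12 * SS x ^ 2 + 2 * 1) := by
      intro x
      rw [SS_cons, SS_cons]
      push_cast
      ring
    simp only [h]
    rw [Finset.sum_add_distrib, Finset.sum_add_distrib, ← Finset.mul_sum, ih, ← Finset.mul_sum,
      ← Finset.mul_sum, M0, M2]
    push_cast
    ring

theorem L1_low (n : ℕ) (hn : 0 < n) : (n / 4 : ℝ) * 2 ^ (n ^ 2) ≤ ∑ x : Gp (n ^ 2), |SS x| := by
  have hn' : (0 : ℝ) < n := by exact_mod_cast hn
  have h1 : ∀ u : ℝ, u ^ 2 / n - u ^ 4 / (4 * n ^ 3) ≤ |u| := by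
    intro u
    have h2 : ∀ r : ℝ, 0 ≤ r → r ^ 2 - r ^ 4 / 4 ≤ r := by
      intro r hr
      have : 0 ≤ r ^ 3 - 4 * r + 4 := by
        nlinarith [mul_nonneg (sq_nonneg (r - 1.2)) (by linarith : (0 : ℝ) ≤ r + 2.4)]
      nlinarith [mul_nonneg hr this]
    have h3 := h2 (|u| / n) (by positivity)
    have h4 : (|u| / n) ^ 2 - (|u| / n) ^ 4 / 4 = (u ^ 2 / n - u ^ 4 / (4 * n ^ 3)) / n := by
      rw [div_pow, div_pow, sq_abs, show |u| ^ 4 = (|u| ^ 2) ^ 2 by ring, sq_abs]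
      field_simp
    rw [h4] at h3
    exact (div_le_div_iff_of_pos_right hn').mp h3
  calc (n / 4 : ℝ) * 2 ^ (n ^ 2) ≤ ∑ x : Gp (n ^ 2), (SS x ^ 2 / n - SS x ^ 4 / (4 * n ^ 3)) := by
        rw [Finset.sum_sub_distrib, ← Finset.sum_div, ← Finset.sum_div, M2, M4]
        push_cast
        have : ((n : ℝ) ^ 2 * 2 ^ n ^ 2 / n - (3 * ((n : ℝ) ^ 2) ^ 2 - 2 * n ^ 2) * 2 ^ n ^ 2 / (4 * n ^ 3))
            = (n / 4 + 1 / (2 * n)) * 2 ^ n ^ 2 := by
          field_simp
          ring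
        rw [this]
        have h5 : (0 : ℝ) ≤ 1 / (2 * n) := by positivity
        exact mul_le_mul_of_nonneg_right (by linarith) (by positivity)
    _ ≤ ∑ x : Gp (n ^ 2), |SS x| := Finset.sum_le_sum fun x _ => h1 _

theorem averaging (m : ℕ) (q : (Gp m → ℝ) →ₗ[ℝ] (Gp m → ℝ)) (K : ℝ)
    (h1 : ∀ a : Gp m → ℝ, (∀ x, |a x| ≤ 1) → ∀ x, |q a x| ≤ K)
    (h2 : ∀ a x, q a x = ∑ i : Fin m, sg x i * ((1 / 2 ^ m : ℝ) * ∑ y : Gp m, sg y i * q a y))
    (h3 : ∀ i : Fin m, q (fun x => sg x i) = fun x => sg x i) :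
    ∑ x : Gp m, |SS x| ≤ K * 2 ^ m := by
  classical
  let α : Fin m → (Gp m → ℝ) →ₗ[ℝ] ℝ := fun i =>
    (1 / 2 ^ m : ℝ) • ∑ y : Gp m, sg y i • ((LinearMap.proj y).comp q)
  have hα : ∀ i a, α i a = (1 / 2 ^ m : ℝ) * ∑ y : Gp m, sg y i * q a y := by
    intro i a
    simp [α]
  have hα1 : ∀ i : Fin m, α i (fun x => sg x i) = 1 := by
    intro i
    rw [hα, h3]
    simp only [sg_sq]
    rw [M0]
    field_simp
  let s : Gp m → ℝ := fun x => SignType.sign (SS x)
  have hs : ∀ x, |s x| ≤ 1 := by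
    intro x
    simp only [s]
    rcases lt_trichotomy (SS x) 0 with h | h | h
    · simp [sign_neg h]
    · simp [h]
    · simp [sign_pos h]
  have hs2 : ∀ x, s x * SS x = |SS x| := fun x => sign_mul_self (SS x)
  let Tr : Gp m → Gp m → ℝ := fun x y => s (x * y)
  have hsum : ∑ x : Gp m, q (Tr x) x = ∑ x : Gp m, |SS x| := by
    have e1 : ∀ x, q (Tr x) x = ∑ i, α i (sg x i • Tr x) := by
      intro x
      rw [h2]
      apply Finset.sum_congr rfl
      intro i _
      rw [map_smul, hα, smul_eq_mul]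
    simp only [e1]
    rw [Finset.sum_comm]
    have e2 : ∀ i : Fin m, ∑ x : Gp m, α i (sg x i • Tr x) = ∑ u : Gp m, sg u i * s u := by
      intro i
      rw [← map_sum]
      have e3 : ∑ x : Gp m, sg x i • Tr x = (∑ u : Gp m, sg u i * s u) • (fun y : Gp m => sg y i) := by
        funext y
        simp only [Finset.sum_apply, Pi.smul_apply, smul_eq_mul, Tr]
        rw [← Equiv.sum_comp (Equiv.mulRight y) (fun u => sg u i * s u), Finset.sum_mul]
        apply Finset.sum_congr rfl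
        intro x _
        simp only [Equiv.coe_mulRight, sg_mul]
        have := sg_sq y i
        linear_combination (-(sg x i * s (x * y))) * this
      rw [e3, map_smul, hα1, smul_eq_mul, mul_one]
    simp only [e2]
    rw [Finset.sum_comm]
    apply Finset.sum_congr rfl
    intro u _
    rw [← hs2 u, SS, Finset.mul_sum]
    apply Finset.sum_congr rfl
    intro i _
    ring
  rw [← hsum]
  calc ∑ x : Gp m, q (Tr x) x ≤ ∑ _x : Gp m, K := by
        apply Finset.sum_le_sum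
        intro x _
        exact (le_abs_self _).trans (h1 (Tr x) (fun y => hs _) x)
    _ = K * 2 ^ m := by
        rw [← M0, Finset.mul_sum]
        simp

/-- There is no bounded linear projection of `C[0,1]` onto `A₀`. -/
theorem no_proj (Q : C(I, ℝ) →ₗ[ℝ] C(I, ℝ)) (K : ℝ) (hK : ∀ f, ‖Q f‖ ≤ K * ‖f‖)
    (h1 : ∀ f, Q f ∈ A0) (h2 : ∀ f ∈ A0, Q f = f) : False := by
  have hK0 : 0 ≤ K := by
    have := (norm_nonneg _).trans (hK 1)
    simpa using this
  have key : ∀ n : ℕ, 0 < n → (n / 4 : ℝ) ≤ K := by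
    intro n hn
    let U : (Gp (n ^ 2) → ℝ) →ₗ[ℝ] C(I, ℝ) :=
      { toFun := UU (n ^ 2)
        map_add' := by
          intro a b
          simp [UU, add_smul, Finset.sum_add_distrib]
        map_smul' := by
          intro c a
          simp [UU, mul_smul, Finset.smul_sum] }
    let V : C(I, ℝ) →ₗ[ℝ] (Gp (n ^ 2) → ℝ) :=
      { toFun := VV (n ^ 2)
        map_add' := by
          intro a b
          funext x
          simp [VV]
        map_smul' := by
          intro c a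
          funext x
          simp [VV] }
    have hav := averaging (n ^ 2) (V ∘ₗ Q ∘ₗ U) K ?_ ?_ ?_
    · have hlow := L1_low n hn
      have := hlow.trans hav
      exact le_of_mul_le_mul_right this (by positivity)
    · intro a ha x
      have e1 : ‖UU (n ^ 2) a‖ ≤ 1 := norm_UU_le _ a 1 zero_le_one ha
      calc |(V ∘ₗ Q ∘ₗ U) a x| = |(Q (UU (n ^ 2) a)) (cI (nu (n ^ 2) x))| := rfl
        _ ≤ ‖Q (UU (n ^ 2) a)‖ := (Q (UU (n ^ 2) a)).norm_coe_le_norm _
        _ ≤ K * ‖UU (n ^ 2) a‖ := hK _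
        _ ≤ K * 1 := mul_le_mul_of_nonneg_left e1 hK0
        _ = K := mul_one K
    · intro a x
      exact ((mem_A0 _).mp (h1 (UU (n ^ 2) a))).2.2 (n ^ 2) x
    · intro i
      change VV (n ^ 2) (Q (UU (n ^ 2) (fun x => sg x i))) = _
      rw [h2 _ (rad_mem _ i), VV_UU]
  obtain ⟨n, hn⟩ := exists_nat_gt (4 * K)
  have hn0 : 0 < n := by
    rcases Nat.eq_zero_or_pos n with h | h
    · subst h
      push_cast at hn
      linarith
    · exact h
  have := key n hn0
  linarith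

end Pool.Agent.Lib.OscSpec
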