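import Pool.Agent.Lib.MP_8e06fd_an.Moment

set_option autoImplicit false

open Set Topology Filter

namespace Pool.Agent.Lib.OscSpec

/-- Composition operator. -/
noncomputable def Cm (φ : C(I, I)) : C(I, ℝ) →L[ℝ] C(I, ℝ) :=
  LinearMap.mkContinuous
    { toFun := fun f => f.comp φ
      map_add' := fun f g => by ext t; simp
      map_smul' := fun c f => by ext t; simp } 1 (by
    intro f
    rw [one_mul]
    change ‖f.comp φ‖ ≤ ‖f‖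
    rw [ContinuousMap.norm_le _ (norm_nonneg _)]
    intro t
    exact f.norm_coe_le_norm _)

@[simp] theorem Cm_apply (φ : C(I, I)) (f : C(I, ℝ)) (t : I) : Cm φ f t = f (φ t) := rfl

theorem norm_Cm_le (φ : C(I, I)) (f : C(I, ℝ)) : ‖Cm φ f‖ ≤ ‖f‖ := by
  rw [ContinuousMap.norm_le _ (norm_nonneg _)]
  intro t
  exact f.norm_coe_le_norm _

/-- Weights. -/
noncomputable def eps (n : ℕ) : ℝ := (1 / 8) * (1 / 2) ^ n

theorem eps_pos (n : ℕ) : 0 < eps n := by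
  unfold eps
  positivity

theorem hasSum_eps : HasSum eps (1 / 4) := by
  have h := hasSum_geometric_two.mul_left (1 / 8 : ℝ)
  have h2 : (1 / 8 * 2 : ℝ) = 1 / 4 := by norm_num
  rw [h2] at h
  exact h

theorem exists_opsum {E : Type} [NormedAddCommGroup E] [NormedSpace ℝ E] [CompleteSpace E]
    (A : ℕ → E →L[ℝ] E) (hA : ∀ n f, ‖A n f‖ ≤ ‖f‖) :
    ∃ S : E →L[ℝ] E, (∀ f, ‖S f‖ ≤ 1 / 4 * ‖f‖) ∧ (∀ f, HasSum (fun n => eps n • A n f) (S f)) ∧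
      (∀ δ : ℝ, 0 < δ → ∃ N : ℕ, ∀ f, ‖S f - ∑ n ∈ Finset.range N, eps n • A n f‖ ≤ δ * ‖f‖) := by
  have h1 : ∀ n, ‖eps n • A n‖ ≤ eps n := by
    intro n
    rw [norm_smul, Real.norm_of_nonneg (eps_pos n).le]
    have : ‖A n‖ ≤ 1 := (A n).opNorm_le_bound zero_le_one (fun f => by rw [one_mul]; exact hA n f)
    calc eps n * ‖A n‖ ≤ eps n * 1 := mul_le_mul_of_nonneg_left this (eps_pos n).le
      _ = eps n := mul_one _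
  have h2 : HasSum (fun n => eps n • A n) (∑' n, eps n • A n) :=
    (Summable.of_norm_bounded hasSum_eps.summable h1).hasSum
  have h3 : ‖∑' n, eps n • A n‖ ≤ 1 / 4 := tsum_of_norm_bounded hasSum_eps h1
  refine ⟨∑' n, eps n • A n, ?_, ?_, ?_⟩
  · intro f
    exact ContinuousLinearMap.le_of_opNorm_le _ h3 f
  · intro f
    have h4 := h2.mapL (ContinuousLinearMap.apply ℝ E f)
    simpa using h4
  · intro δ hδ
    have h4 := h2.tendsto_sum_nat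
    have h5 := (Metric.tendsto_atTop.mp h4) δ hδ
    obtain ⟨N, hN⟩ := h5
    refine ⟨N, fun f => ?_⟩
    have h6 := hN N le_rfl
    rw [dist_comm, dist_eq_norm] at h6
    have h7 := ContinuousLinearMap.le_of_opNorm_le _ h6.le f
    simpa using h7

theorem exists_Sop (ψ : ℕ → C(I, I)) :
    ∃ S : C(I, ℝ) →L[ℝ] C(I, ℝ), (∀ f, ‖S f‖ ≤ 1 / 4 * ‖f‖) ∧
      (∀ f, HasSum (fun n => eps n • Cm (ψ n) f) (S f)) ∧
      (∀ δ : ℝ, 0 < δ → ∃ N : ℕ, ∀ f, ‖S f - ∑ n ∈ Finset.range N, eps n • Cm (ψ n) f‖ ≤ δ * ‖f‖) :=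
  exists_opsum (fun n => Cm (ψ n)) (fun n f => norm_Cm_le _ f)

/-- The operator `f ↦ ∑ ε_n f ∘ ψ_n`. -/
noncomputable def Sop (ψ : ℕ → C(I, I)) : C(I, ℝ) →L[ℝ] C(I, ℝ) := Classical.choose (exists_Sop ψ)

theorem norm_Sop_le (ψ : ℕ → C(I, I)) (f : C(I, ℝ)) : ‖Sop ψ f‖ ≤ 1 / 4 * ‖f‖ :=
  (Classical.choose_spec (exists_Sop ψ)).1 f

theorem hasSum_Sop (ψ : ℕ → C(I, I)) (f : C(I, ℝ)) :
    HasSum (fun n => eps n • Cm (ψ n) f) (Sop ψ f) :=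
  (Classical.choose_spec (exists_Sop ψ)).2.1 f

theorem Sop_approx (ψ : ℕ → C(I, I)) (δ : ℝ) (hδ : 0 < δ) :
    ∃ N : ℕ, ∀ f, ‖Sop ψ f - ∑ n ∈ Finset.range N, eps n • Cm (ψ n) f‖ ≤ δ * ‖f‖ :=
  (Classical.choose_spec (exists_Sop ψ)).2.2 δ hδ

theorem hasSum_Sop_apply (ψ : ℕ → C(I, I)) (f : C(I, ℝ)) (t : I) :
    HasSum (fun n => eps n * f (ψ n t)) (Sop ψ f t) := by
  have h1 := (hasSum_Sop ψ f).mapL (ev t)
  simpa using h1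

/-- The data of the construction. -/
structure Dat where
  φ0 : C(I, I)
  φ1 : C(I, I)
  ψ : ℕ → C(I, I)
  w : C(I, ℝ)
  B : Submodule ℝ C(I, ℝ)
  hB : IsClosed (B : Set C(I, ℝ))
  hw0 : ∀ t, 0 ≤ w t
  hw1 : ∀ t, w t ≤ 1
  hlow : ∀ f ∈ A0, ∀ g ∈ B, ‖f‖ ≤ ‖Cm φ0 f + Cm φ1 g‖ ∧ ‖g‖ ≤ ‖Cm φ0 f + Cm φ1 g‖

namespace Dat

variable (D : Dat)

/-- The operator `T`. -/
noncomputable def T : C(I, ℝ) × C(I, ℝ) →L[ℝ] C(I, ℝ) :=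
  (Cm D.φ0 + Sop D.ψ).comp (ContinuousLinearMap.fst ℝ _ _) +
    (Cm D.φ1 + (1 / 8 : ℝ) • ContinuousLinearMap.mul ℝ C(I, ℝ) D.w).comp
      (ContinuousLinearMap.snd ℝ _ _)

theorem T_apply (f g : C(I, ℝ)) (t : I) :
    D.T (f, g) t = f (D.φ0 t) + Sop D.ψ f t + (g (D.φ1 t) + 1 / 8 * (D.w t * g t)) := by
  simp [T]

theorem norm_w_le : ‖D.w‖ ≤ 1 := by
  rw [ContinuousMap.norm_le _ zero_le_one]
  intro t
  rw [Real.norm_of_nonneg (D.hw0 t)]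
  exact D.hw1 t

theorem T_eq (f g : C(I, ℝ)) :
    D.T (f, g) = (Cm D.φ0 f + Cm D.φ1 g) + (Sop D.ψ f + (1 / 8 : ℝ) • (D.w * g)) := by
  ext t
  rw [T_apply]
  simp
  ring

theorem norm_pert_le (f g : C(I, ℝ)) :
    ‖Sop D.ψ f + (1 / 8 : ℝ) • (D.w * g)‖ ≤ 1 / 4 * ‖f‖ + 1 / 8 * ‖g‖ := by
  refine (norm_add_le _ _).trans (add_le_add ?_ ?_)
  · exact norm_Sop_le _ f
  · rw [norm_smul, Real.norm_of_nonneg (by norm_num : (0 : ℝ) ≤ 1 / 8)]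
    refine mul_le_mul_of_nonneg_left ?_ (by norm_num)
    refine (norm_mul_le _ _).trans ?_
    calc ‖D.w‖ * ‖g‖ ≤ 1 * ‖g‖ := mul_le_mul_of_nonneg_right D.norm_w_le (norm_nonneg _)
      _ = ‖g‖ := one_mul _

theorem T_low (p : C(I, ℝ) × C(I, ℝ)) (hp : p ∈ A0.prod D.B) : ‖p‖ ≤ 2 * ‖D.T p‖ := by
  obtain ⟨f, g⟩ := p
  obtain ⟨hf, hg⟩ := Submodule.mem_prod.mp hp
  obtain ⟨h1, h2⟩ := D.hlow f hf g hg
  have h3 := D.norm_pert_le f g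
  have h4 : ‖Cm D.φ0 f + Cm D.φ1 g‖ ≤ ‖D.T (f, g)‖ + ‖Sop D.ψ f + (1 / 8 : ℝ) • (D.w * g)‖ := by
    rw [T_eq]
    have := norm_sub_le ((Cm D.φ0 f + Cm D.φ1 g) + (Sop D.ψ f + (1 / 8 : ℝ) • (D.w * g)))
      (Sop D.ψ f + (1 / 8 : ℝ) • (D.w * g))
    simpa using this
  rw [Prod.norm_def]
  apply max_le
  · change ‖f‖ ≤ _
    linarith [norm_nonneg f, norm_nonneg g]
  · change ‖g‖ ≤ _
    linarith [norm_nonneg f, norm_nonneg g]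

theorem norm_T_le (f g : C(I, ℝ)) : ‖D.T (f, g)‖ ≤ 2 * ‖f‖ + 2 * ‖g‖ := by
  rw [T_eq]
  have h1 := norm_add_le (Cm D.φ0 f + Cm D.φ1 g) (Sop D.ψ f + (1 / 8 : ℝ) • (D.w * g))
  have h2 := norm_add_le (Cm D.φ0 f) (Cm D.φ1 g)
  have h3 := D.norm_pert_le f g
  have h4 : ‖Cm D.φ0 f‖ ≤ ‖f‖ := norm_Cm_le _ f
  have h5 : ‖Cm D.φ1 g‖ ≤ ‖g‖ := norm_Cm_le _ g
  linarith [norm_nonneg f, norm_nonneg g]

/-- The restricted operator. -/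
noncomputable def T' : (A0.prod D.B) →L[ℝ] C(I, ℝ) := D.T.comp (A0.prod D.B).subtypeL

theorem T'_low (p : A0.prod D.B) : ‖p‖ ≤ 2 * ‖D.T' p‖ := D.T_low p p.2

theorem T'_inj : Function.Injective D.T' := by
  have h : AntilipschitzWith 2 D.T' := D.T'.antilipschitz_of_bound (fun p => D.T'_low p)
  exact h.injective

/-- The space. -/
noncomputable def X : Submodule ℝ C(I, ℝ) := LinearMap.range (D.T' : (A0.prod D.B) →ₗ[ℝ] C(I, ℝ))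

theorem mem_X (h : C(I, ℝ)) : h ∈ D.X ↔ ∃ f ∈ A0, ∃ g ∈ D.B, D.T (f, g) = h := by
  constructor
  · rintro ⟨⟨⟨f, g⟩, hp⟩, h1⟩
    obtain ⟨hf, hg⟩ := Submodule.mem_prod.mp hp
    exact ⟨f, hf, g, hg, h1⟩
  · rintro ⟨f, hf, g, hg, h1⟩
    exact ⟨⟨(f, g), Submodule.mem_prod.mpr ⟨hf, hg⟩⟩, h1⟩

theorem isClosed_X : IsClosed (D.X : Set C(I, ℝ)) := by
  have h : AntilipschitzWith 2 D.T' := D.T'.antilipschitz_of_bound (fun p => D.T'_low p)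
  have hc : IsClosed ((A0.prod D.B : Submodule ℝ (C(I, ℝ) × C(I, ℝ))) : Set (C(I, ℝ) × C(I, ℝ))) := by
    rw [Submodule.prod_coe]
    exact isClosed_A0.prod D.hB
  have : CompleteSpace (A0.prod D.B) := hc.completeSpace_coe
  have := h.isClosed_range D.T'.uniformContinuous
  exact this

theorem not_complemented : ¬ Complemented D.X := by
  rintro ⟨P, hP1, hP2⟩
  obtain ⟨C, hC, hPC⟩ := P.bound
  let e : (A0.prod D.B) ≃ₗ[ℝ] D.X :=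
    LinearEquiv.ofInjective (D.T' : (A0.prod D.B) →ₗ[ℝ] C(I, ℝ)) D.T'_inj
  have he : ∀ x, D.T' (e.symm x) = (x : C(I, ℝ)) := by
    intro x
    have : ((e (e.symm x) : D.X) : C(I, ℝ)) = D.T' (e.symm x) := rfl
    rw [← this, e.apply_symm_apply]
  let R0 : C(I, ℝ) →ₗ[ℝ] C(I, ℝ) :=
    (P : C(I, ℝ) →ₗ[ℝ] C(I, ℝ)) ∘ₗ (D.T : C(I, ℝ) × C(I, ℝ) →ₗ[ℝ] C(I, ℝ)) ∘ₗ LinearMap.inl ℝ _ _
  have hR0 : ∀ f, R0 f = P (D.T (f, 0)) := fun f => rfl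
  let R : C(I, ℝ) →ₗ[ℝ] D.X := R0.codRestrict D.X (fun f => (hP2 _).mpr ⟨_, rfl⟩)
  have hR : ∀ f, ((R f : D.X) : C(I, ℝ)) = P (D.T (f, 0)) := fun f => rfl
  let Q : C(I, ℝ) →ₗ[ℝ] C(I, ℝ) :=
    LinearMap.fst ℝ _ _ ∘ₗ (A0.prod D.B).subtype ∘ₗ (e.symm : D.X →ₗ[ℝ] (A0.prod D.B)) ∘ₗ R
  have hQ : ∀ f, Q f = ((e.symm (R f) : A0.prod D.B) : C(I, ℝ) × C(I, ℝ)).1 := fun f => rfl
  refine no_proj Q (4 * C) ?_ ?_ ?_
  · intro f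
    rw [hQ]
    calc ‖((e.symm (R f) : A0.prod D.B) : C(I, ℝ) × C(I, ℝ)).1‖
        ≤ ‖((e.symm (R f) : A0.prod D.B) : C(I, ℝ) × C(I, ℝ))‖ := norm_fst_le _
      _ ≤ 2 * ‖D.T' (e.symm (R f))‖ := D.T'_low _
      _ = 2 * ‖P (D.T (f, 0))‖ := by rw [he, hR]
      _ ≤ 2 * (C * ‖D.T (f, 0)‖) := mul_le_mul_of_nonneg_left (hPC _) (by norm_num)
      _ ≤ 2 * (C * (2 * ‖f‖ + 2 * ‖(0 : C(I, ℝ))‖)) :=
        mul_le_mul_of_nonneg_left (mul_le_mul_of_nonneg_left (D.norm_T_le f 0) hC.le)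
          (by norm_num)
      _ = 4 * C * ‖f‖ := by rw [norm_zero]; ring
  · intro f
    rw [hQ]
    exact (Submodule.mem_prod.mp (e.symm (R f)).2).1
  · intro f hf
    rw [hQ]
    have h1 : D.T (f, 0) ∈ D.X := (D.mem_X _).mpr ⟨f, hf, 0, D.B.zero_mem, rfl⟩
    have h2 : P (D.T (f, 0)) = D.T (f, 0) := by
      obtain ⟨g, hg⟩ := (hP2 _).mp h1
      rw [← hg, hP1]
    have h3 : R f = e ⟨(f, 0), Submodule.mem_prod.mpr ⟨hf, D.B.zero_mem⟩⟩ := by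
      apply Subtype.ext
      rw [hR, h2]
      rfl
    rw [h3, e.symm_apply_apply]

end Dat

end Pool.Agent.Lib.OscSpec
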