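import Pool.Agent.Lib.MP_8e06fd_an.Oper

set_option autoImplicit false

open Set Topology Filter

namespace Pool.Agent.Lib.OscSpec

theorem dist_I (s t : I) : dist s t = |(s : ℝ) - t| := rfl

theorem not_mem_spec' (X : Submodule ℝ C(I, ℝ)) (t : I)
    (h : ∀ η : ℝ, 0 < η → ∀ᶠ s in 𝓝 t, ∀ f ∈ X, ‖f‖ = 1 → |f s - f t| ≤ η) :
    t ∉ oscSpectrum X := by
  apply not_mem_spec
  intro η hη
  obtain ⟨d, hd, hd2⟩ := Metric.eventually_nhds_iff.mp (h (η / 2) (by linarith))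
  refine ⟨d / 2, by linarith, ?_⟩
  intro f hf hf1 s hs u hu
  have hs' : dist s t < d := by
    have : |(s : ℝ) - t| ≤ d / 2 := hs
    rw [dist_I]
    linarith
  have hu' : dist u t < d := by
    have : |(u : ℝ) - t| ≤ d / 2 := hu
    rw [dist_I]
    linarith
  have h1 := hd2 hs' f hf hf1
  have h2 := hd2 hu' f hf hf1
  have h3 := abs_sub_le (f s) (f t) (f u)
  rw [abs_sub_comm (f t) (f u)] at h3
  linarith

theorem mem_spec' (X : Submodule ℝ C(I, ℝ)) (t : I) (c : ℝ) (hc : 0 < c)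
    (h : ∀ d : ℝ, 0 < d → ∃ F ∈ X, F ≠ 0 ∧ ∃ s ∈ nbhd t d, c * ‖F‖ ≤ |F s - F t|) :
    t ∈ oscSpectrum X := by
  apply mem_spec X t c hc
  intro d hd
  obtain ⟨F, hF, hF0, s, hs, hs2⟩ := h d hd
  have hn : 0 < ‖F‖ := norm_pos_iff.mpr hF0
  refine ⟨‖F‖⁻¹ • F, X.smul_mem _ hF, ?_, s, hs, t, mem_nbhd_self t hd, ?_⟩
  · rw [norm_smul, norm_inv, norm_norm, inv_mul_cancel₀ hn.ne']
  · have h1 : (‖F‖⁻¹ • F) s - (‖F‖⁻¹ • F) t = ‖F‖⁻¹ * (F s - F t) := by
      simp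
      ring
    rw [h1, abs_mul, abs_of_pos (inv_pos.mpr hn)]
    rw [← div_eq_inv_mul, le_div_iff₀ hn]
    exact hs2

theorem A0_comp_equi (ψ : C(I, I)) (t : I) (h : 0 < ((ψ t : I) : ℝ) ∨ ∀ᶠ s in 𝓝 t, ψ s = 0)
    (η : ℝ) (hη : 0 < η) :
    ∀ᶠ s in 𝓝 t, ∀ f ∈ A0, ‖f‖ ≤ 2 → |f (ψ s) - f (ψ t)| ≤ η := by
  rcases h with h | h
  · obtain ⟨J, hJ⟩ := pow_unbounded_of_one_lt (1 / ((ψ t : I) : ℝ)) (by norm_num : (1 : ℝ) < 2)
    have hJ' : 1 < (2 : ℝ) ^ J * (ψ t : I) := by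
      rwa [div_lt_iff₀ h] at hJ
    set L : ℝ := ∑ j ∈ Finset.range J, (2 : ℝ) ^ (j + 2) with hL
    have hL0 : 0 ≤ L := Finset.sum_nonneg fun j _ => by positivity
    have hc : Continuous fun s : I => ((ψ s : I) : ℝ) := continuous_subtype_val.comp ψ.continuous
    have e1 : ∀ᶠ s in 𝓝 t, 1 < (2 : ℝ) ^ J * (ψ s : I) :=
      (continuous_const.mul hc).continuousAt.eventually (lt_mem_nhds hJ')
    have e2 : ∀ᶠ s in 𝓝 t, 2 * (L * |((ψ s : I) : ℝ) - (ψ t : I)|) < η := by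
      have hc2 : Continuous fun s : I => 2 * (L * |((ψ s : I) : ℝ) - (ψ t : I)|) := by fun_prop
      exact hc2.continuousAt.eventually (gt_mem_nhds (by simpa using hη))
    filter_upwards [e1, e2] with s h1 h2 f hf hfn
    refine (A0_lip J f hf (ψ s) (ψ t) h1.le hJ'.le).trans ?_
    refine le_trans ?_ h2.le
    exact mul_le_mul_of_nonneg_right hfn (mul_nonneg hL0 (abs_nonneg _))
  · have h0 := h.self_of_nhds
    filter_upwards [h] with s hs f _ _
    rw [hs, h0, sub_self, abs_zero]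
    exact hη.le

namespace Dat

variable (D : Dat)

theorem not_mem (t : I)
    (ha : 0 < ((D.φ0 t : I) : ℝ) ∨ ∀ᶠ s in 𝓝 t, D.φ0 s = 0)
    (hb : ∀ n, 0 < ((D.ψ n t : I) : ℝ))
    (hc : ∀ η : ℝ, 0 < η → ∀ᶠ s in 𝓝 t, ∀ g ∈ D.B, ‖g‖ ≤ 2 →
      |(g (D.φ1 s) + 1 / 8 * (D.w s * g s)) - (g (D.φ1 t) + 1 / 8 * (D.w t * g t))| ≤ η) :
    t ∉ oscSpectrum D.X := by
  apply not_mem_spec'
  intro η hη
  obtain ⟨N, hN⟩ := Sop_approx D.ψ (η / 16) (by linarith)
  have e1 := A0_comp_equi D.φ0 t ha (η / 4) (by linarith)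
  have e2 := hc (η / 4) (by linarith)
  have e3 : ∀ᶠ s in 𝓝 t, ∀ n ∈ Finset.range N, ∀ f ∈ A0, ‖f‖ ≤ 2 →
      |f (D.ψ n s) - f (D.ψ n t)| ≤ η := by
    rw [Filter.eventually_all_finset]
    intro n _
    exact A0_comp_equi (D.ψ n) t (Or.inl (hb n)) η hη
  filter_upwards [e1, e2, e3] with s h1 h2 h3 F hF hF1
  obtain ⟨f, hf, g, hg, rfl⟩ := (D.mem_X F).mp hF
  have hlow := D.T_low (f, g) (Submodule.mem_prod.mpr ⟨hf, hg⟩)
  rw [hF1, Prod.norm_def] at hlow
  have hf2 : ‖f‖ ≤ 2 := by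
    have := (le_max_left ‖f‖ ‖g‖).trans hlow
    linarith
  have hg2 : ‖g‖ ≤ 2 := by
    have := (le_max_right ‖f‖ ‖g‖).trans hlow
    linarith
  rw [D.T_apply, D.T_apply]
  have i1 := h1 f hf hf2
  have i2 := h2 g hg hg2
  -- the series part
  set R : C(I, ℝ) := ∑ n ∈ Finset.range N, eps n • Cm (D.ψ n) f with hR
  have j1 : ‖Sop D.ψ f - R‖ ≤ η / 8 := by
    refine (hN f).trans ?_
    calc η / 16 * ‖f‖ ≤ η / 16 * 2 := mul_le_mul_of_nonneg_left hf2 (by linarith)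
      _ = η / 8 := by ring
  have j2 : ∀ u : I, |Sop D.ψ f u - R u| ≤ η / 8 := by
    intro u
    exact ((Sop D.ψ f - R).norm_coe_le_norm u).trans j1
  have j3 : |R s - R t| ≤ η / 4 := by
    have k1 : R s - R t = ∑ n ∈ Finset.range N, eps n * (f (D.ψ n s) - f (D.ψ n t)) := by
      rw [hR]
      simp only [ContinuousMap.sum_apply, ContinuousMap.smul_apply, Cm_apply, smul_eq_mul]
      rw [← Finset.sum_sub_distrib]
      apply Finset.sum_congr rfl
      intro n _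
      ring
    rw [k1]
    refine (Finset.abs_sum_le_sum_abs _ _).trans ?_
    calc ∑ n ∈ Finset.range N, |eps n * (f (D.ψ n s) - f (D.ψ n t))|
        ≤ ∑ n ∈ Finset.range N, eps n * η := by
          apply Finset.sum_le_sum
          intro n hn
          rw [abs_mul, abs_of_pos (eps_pos n)]
          exact mul_le_mul_of_nonneg_left (h3 n hn f hf hf2) (eps_pos n).le
      _ = (∑ n ∈ Finset.range N, eps n) * η := by rw [Finset.sum_mul]
      _ ≤ 1 / 4 * η := by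
          refine mul_le_mul_of_nonneg_right ?_ hη.le
          exact sum_le_hasSum _ (fun i _ => (eps_pos i).le) hasSum_eps
      _ = η / 4 := by ring
  have j4 := j2 s
  have j5 := j2 t
  rw [abs_le] at *
  constructor <;> linarith [j4.1, j4.2, j5.1, j5.2, j3.1, j3.2, i1.1, i1.2, i2.1, i2.2]

theorem bR_tendsto (s : I) : Tendsto (fun k : ℕ => bR (2 * k) s) atTop (𝓝 0) := by
  rcases eq_or_lt_of_le s.2.1 with h | h
  · have : ∀ k : ℕ, bR (2 * k) s = 0 := by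
      intro k
      rw [← h]
      exact bR_zero _
    simp [this]
  · obtain ⟨J, hJ⟩ := pow_unbounded_of_one_lt (1 / (s : ℝ)) (by norm_num : (1 : ℝ) < 2)
    have hJ' : 1 < (2 : ℝ) ^ J * s := by
      rwa [div_lt_iff₀ h] at hJ
    apply tendsto_const_nhds.congr'
    filter_upwards [eventually_ge_atTop J] with k hk
    symm
    apply bR_eq_zero_of_ge
    have h1 : (2 : ℝ) ^ J ≤ 2 ^ (2 * k) := pow_le_pow_right₀ (by norm_num) (by omega)
    nlinarith

theorem Sop_tendsto (ψ : ℕ → C(I, I)) (t : I) :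
    Tendsto (fun k : ℕ => Sop ψ (bC (2 * k)) t) atTop (𝓝 0) := by
  have h1 : ∀ k : ℕ, Sop ψ (bC (2 * k)) t = ∑' n, eps n * bR (2 * k) (ψ n t) := by
    intro k
    exact (hasSum_Sop_apply ψ (bC (2 * k)) t).tsum_eq.symm
  simp only [h1]
  have h2 : ∑' n : ℕ, eps n * (0 : ℝ) = 0 := by simp
  suffices h : Tendsto (fun k => ∑' (n : ℕ), eps n * bR (2 * k) ((ψ n) t)) atTop
      (𝓝 (∑' n : ℕ, eps n * (0 : ℝ))) by
    simpa only [h2] using h
  apply tendsto_tsum_of_dominated_convergence (bound := eps) hasSum_eps.summable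
  · intro n
    exact (bR_tendsto (ψ n t)).const_mul (eps n)
  · filter_upwards with k n
    rw [Real.norm_of_nonneg (mul_nonneg (eps_pos n).le (bR_nonneg _ _))]
    calc eps n * bR (2 * k) (ψ n t) ≤ eps n * 1 :=
          mul_le_mul_of_nonneg_left (bR_le_one _ _) (eps_pos n).le
      _ = eps n := mul_one _

theorem norm_bC_le (j : ℕ) : ‖bC j‖ ≤ 1 := by
  rw [ContinuousMap.norm_le _ zero_le_one]
  intro s
  rw [bC_apply, Real.norm_of_nonneg (bR_nonneg _ _)]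
  exact bR_le_one _ _

/-- Intermediate value on `I`. -/
theorem ivt_I (ψ : C(I, I)) (t s : I) (h0 : ψ t = 0) (c : ℝ) (hc0 : 0 ≤ c) (hc : c ≤ (ψ s : I)) :
    ∃ u : I, |(u : ℝ) - t| ≤ |(s : ℝ) - t| ∧ ((ψ u : I) : ℝ) = c := by
  let γ : ℝ → I := fun l => Set.projIcc 0 1 zero_le_one ((t : ℝ) + l * (s - t))
  have hγ : Continuous γ := continuous_projIcc.comp (by fun_prop)
  have hmem : ∀ l ∈ Set.Icc (0 : ℝ) 1, ((t : ℝ) + l * (s - t)) ∈ Set.Icc (0 : ℝ) 1 := by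
    intro l hl
    have h1 := t.2.1
    have h2 := t.2.2
    have h3 := s.2.1
    have h4 := s.2.2
    constructor
    · nlinarith [hl.1, hl.2]
    · nlinarith [hl.1, hl.2]
  have hγv : ∀ l ∈ Set.Icc (0 : ℝ) 1, ((γ l : I) : ℝ) = (t : ℝ) + l * (s - t) := by
    intro l hl
    simp only [γ]
    rw [Set.projIcc_of_mem zero_le_one (hmem l hl)]
  have hF : Continuous fun l : ℝ => ((ψ (γ l) : I) : ℝ) :=
    continuous_subtype_val.comp (ψ.continuous.comp hγ)
  have hF0 : ((ψ (γ 0) : I) : ℝ) = 0 := by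
    have : γ 0 = t := by
      apply Subtype.ext
      rw [hγv 0 (by simp)]
      ring
    rw [this, h0]
    rfl
  have hF1 : ((ψ (γ 1) : I) : ℝ) = ψ s := by
    have : γ 1 = s := by
      apply Subtype.ext
      rw [hγv 1 (by simp)]
      ring
    rw [this]
  have hivt := intermediate_value_Icc (zero_le_one : (0 : ℝ) ≤ 1) hF.continuousOn
  have hcm : c ∈ Set.Icc ((ψ (γ 0) : I) : ℝ) ((ψ (γ 1) : I) : ℝ) := by
    rw [hF0, hF1]
    exact ⟨hc0, hc⟩
  obtain ⟨l, hl, hl2⟩ := hivt hcm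
  refine ⟨γ l, ?_, hl2⟩
  rw [hγv l hl]
  have : (t : ℝ) + l * (s - t) - t = l * (s - t) := by ring
  rw [this, abs_mul, abs_of_nonneg hl.1]
  calc l * |(s : ℝ) - t| ≤ 1 * |(s : ℝ) - t| := mul_le_mul_of_nonneg_right hl.2 (abs_nonneg _)
    _ = _ := one_mul _

theorem mem_of_psi (t : I) (n : ℕ) (h0 : D.ψ n t = 0)
    (h1 : ∀ d : ℝ, 0 < d → ∃ s ∈ nbhd t d, 0 < ((D.ψ n s : I) : ℝ)) :
    t ∈ oscSpectrum D.X := by
  have hen := eps_pos n
  apply mem_spec' D.X t (eps n / 4) (by linarith)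
  intro d hd
  obtain ⟨s, hs, hs0⟩ := h1 d hd
  -- choose `k`
  have hF : Tendsto (fun k : ℕ => D.T (bC (2 * k), 0) t) atTop (𝓝 0) := by
    have : (fun k : ℕ => D.T (bC (2 * k), 0) t) =
        fun k : ℕ => bR (2 * k) (D.φ0 t) + Sop D.ψ (bC (2 * k)) t := by
      funext k
      rw [D.T_apply]
      simp
    rw [this]
    have := (bR_tendsto (D.φ0 t)).add (Sop_tendsto D.ψ t)
    simpa using this
  have hF2 : ∀ᶠ k in atTop, D.T (bC (2 * k), 0) t < eps n / 2 :=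
    hF.eventually (gt_mem_nhds (by linarith))
  have hc : Tendsto (fun k : ℕ => (1 : ℝ) / 2 ^ (2 * k)) atTop (𝓝 0) := by
    have h3 : Tendsto (fun k : ℕ => ((1 : ℝ) / 4) ^ k) atTop (𝓝 0) :=
      tendsto_pow_atTop_nhds_zero_of_lt_one (by norm_num) (by norm_num)
    refine h3.congr ?_
    intro k
    rw [pow_mul, div_pow, one_pow]
    norm_num
  have hc2 : ∀ᶠ k in atTop, (1 : ℝ) / 2 ^ (2 * k) < (D.ψ n s : I) :=
    hc.eventually (gt_mem_nhds hs0)
  obtain ⟨k, hk1, hk2⟩ := (hF2.and hc2).exists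
  obtain ⟨u, hu1, hu2⟩ := ivt_I (D.ψ n) t s h0 (cI (2 * k)) (cI_pos _).le
    ((cI_le (2 * k)).trans hk2.le)
  have hval : eps n ≤ D.T (bC (2 * k), 0) u := by
    rw [D.T_apply]
    have hs1 : eps n * bC (2 * k) (D.ψ n u) ≤ Sop D.ψ (bC (2 * k)) u :=
      le_hasSum (hasSum_Sop_apply D.ψ (bC (2 * k)) u) n
        (fun j _ => mul_nonneg (eps_pos j).le (bR_nonneg _ _))
    have hs2 : bC (2 * k) (D.ψ n u) = 1 := by
      rw [bC_apply, hu2, bR_cI_self]
    rw [hs2] at hs1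
    have hs3 : 0 ≤ bC (2 * k) (D.φ0 u) := bR_nonneg _ _
    simp only [ContinuousMap.zero_apply]
    linarith
  refine ⟨D.T (bC (2 * k), 0), (D.mem_X _).mpr ⟨_, even_mem k, 0, D.B.zero_mem, rfl⟩, ?_, u, ?_, ?_⟩
  · intro h
    rw [h] at hval
    simp only [ContinuousMap.zero_apply] at hval
    linarith
  · have hs' : |(s : ℝ) - t| ≤ d := hs
    exact hu1.trans hs'
  · have hn : ‖D.T (bC (2 * k), 0)‖ ≤ 2 := by
      refine (D.norm_T_le _ _).trans ?_
      rw [norm_zero]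
      linarith [norm_bC_le (2 * k)]
    calc eps n / 4 * ‖D.T (bC (2 * k), 0)‖ ≤ eps n / 4 * 2 :=
          mul_le_mul_of_nonneg_left hn (by linarith)
      _ ≤ D.T (bC (2 * k), 0) u - D.T (bC (2 * k), 0) t := by linarith
      _ ≤ _ := le_abs_self _

theorem mem_of_w (t : I) (hw : 0 < D.w t) (hB : ∀ g : C(I, ℝ), g 0 = 0 → g ∈ D.B) :
    t ∈ oscSpectrum D.X := by
  apply mem_spec' D.X t (D.w t / 32) (by linarith)
  intro d hd
  -- choose a nearby point
  have hnb : nbhd t d ∩ {s | D.w t / 2 < D.w s} ∈ 𝓝 t := by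
    apply Filter.inter_mem
    · have : Metric.closedBall t d ⊆ nbhd t d := by
        intro s hs
        exact hs
      exact Filter.mem_of_superset (Metric.closedBall_mem_nhds t hd) this
    · exact D.w.continuous.continuousAt.eventually (lt_mem_nhds (by linarith))
  have : ConnectedSpace I :=
    Subtype.connectedSpace ⟨⟨0, by simp⟩, isPreconnected_Icc⟩
  have : Nontrivial I := ⟨⟨0, 1, by
    intro h
    have := congrArg Subtype.val h
    norm_num at this⟩⟩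
  have hinf := infinite_of_mem_nhds t hnb
  obtain ⟨s, hs, hs2⟩ := hinf.exists_notMem_finset {t, 0, D.φ1 t}
  simp only [Finset.mem_insert, Finset.mem_singleton, not_or] at hs2
  obtain ⟨g, hg0, hg1, hg2⟩ := exists_continuous_zero_one_of_isClosed
    (s := ({t, 0, D.φ1 t} : Set I)) (t := ({s} : Set I))
    ((Set.toFinite _).isClosed) isClosed_singleton (by
      rw [Set.disjoint_singleton_right]
      simp only [Set.mem_insert_iff, Set.mem_singleton_iff, not_or]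
      exact hs2)
  have gt0 : g t = 0 := hg0 (by simp)
  have g00 : g 0 = 0 := hg0 (by simp)
  have gφ0 : g (D.φ1 t) = 0 := hg0 (by simp)
  have gs1 : g s = 1 := hg1 rfl
  have hval : D.w t / 16 ≤ D.T (0, g) s := by
    rw [D.T_apply, gs1]
    simp only [ContinuousMap.zero_apply, map_zero]
    have h1 := (hg2 (D.φ1 s)).1
    have h2 : D.w t / 2 < D.w s := hs.2
    linarith
  have hval0 : D.T (0, g) t = 0 := by
    rw [D.T_apply, gt0, gφ0]
    simp
  refine ⟨D.T (0, g), (D.mem_X _).mpr ⟨0, A0.zero_mem, g, hB g g00, rfl⟩, ?_, s, hs.1, ?_⟩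
  · intro h
    rw [h] at hval
    simp only [ContinuousMap.zero_apply] at hval
    linarith
  · have hgn : ‖g‖ ≤ 1 := by
      rw [ContinuousMap.norm_le _ zero_le_one]
      intro u
      rw [Real.norm_of_nonneg (hg2 u).1]
      exact (hg2 u).2
    have hn : ‖D.T (0, g)‖ ≤ 2 := by
      refine (D.norm_T_le _ _).trans ?_
      rw [norm_zero]
      linarith
    calc D.w t / 32 * ‖D.T (0, g)‖ ≤ D.w t / 32 * 2 :=
          mul_le_mul_of_nonneg_left hn (by linarith)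
      _ ≤ D.T (0, g) s - D.T (0, g) t := by linarith
      _ ≤ _ := le_abs_self _

end Dat

end Pool.Agent.Lib.OscSpec
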